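import Pool.Agent.Helper82.FL.RawL

/-!
# The plain leaf, flat version

The tests at the corners of the tile are one closure `t q U W0 W E r` (`r`: what remains to be
tested), built once for a record; structures are opened once.
-/

set_option autoImplicit false

namespace Pool.Agent.Helper31.F5

open Pool.Agent.Helper82.FL

/-- the tests at the corners of the tile: `q U W0 W E`, the rest -/
abbrev TF := Nat → Nat → Nat → Nat → Nat → Bool → Bool

/-- `a`, then `r` -/
noncomputable def an1 (r a : Bool) : Bool := @Bool.rec (fun _ => Bool) false r a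

/-- `a b c d`, then `r` -/
noncomputable def an4 (r a b c d : Bool) : Bool :=
  @Bool.rec (fun _ => Bool) false (@Bool.rec (fun _ => Bool) false
    (@Bool.rec (fun _ => Bool) false (@Bool.rec (fun _ => Bool) false r d) c) b) a

/-- the test at a corner of the tile -/
noncomputable def tM (kd tk tt a b n : Nat) (t : TF) (q U W0 W E : Nat) (r : Bool) : Bool :=
  cnd (t q U W0 W E r)
    (Nat.ble (Nat.mul q (Nat.add
        (Nat.mul kd (Nat.div (Nat.mod (Nat.add (Nat.mul U a) BI8) B9) B8))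
        (Nat.mul tt (Nat.div (Nat.mod (Nat.add (Nat.mul W b) BI8) B9) B8))))
      (Nat.mul tk E))
    (Nat.beq n 0) (Nat.beq (dig W0 n) 0)

/-- the bounds of the scales of a corner -/
noncomputable def scM1 (ih : Nat → (TF → Bool) → Bool) (k : TF → Bool) (a b n T e K ts : Nat) : Bool :=
  an4 (ih ts fun t => k (tM (Nat.mul K e) (Nat.mul T e) (Nat.mul T T) a b n t))
    (Nat.ble 1 T) (Nat.ble (Nat.mul K e) P280) (Nat.ble (Nat.mul T e) P280)
    (Nat.ble (Nat.mul T T) 340282366920938463463374607431768211456)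

/-- the corners of the tile with their scales -/
noncomputable def scM (m K : Nat) (cs : List V) : Nat → (TF → Bool) → Bool :=
  @List.rec V (fun _ => Nat → (TF → Bool) → Bool) (fun _ k => k (fun _ _ _ _ _ r => r))
    (fun v _ ih ts k =>
      @V.rec (fun _ => Bool) (fun _ _ _ _ _ _ _ a b n d l =>
        scM1 ih k a b n (Nat.mul (Nat.mod ts 65536) l) (Nat.mul K d) K (nxT m ts)) v) cs

/-- the last step at a corner of the box -/
noncomputable def plM4 (t : TF) (q U W0 W E : Nat) (r : Bool) : Bool :=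
  an1 (t q U W0 W E r) (Nat.ble 1 E)

/-- the numbers of a corner of the box -/
noncomputable def plM3 (t : TF) (r : Bool) (q rq rs W0 D : Nat)
    (gx0 gx1 gx2 gy0 gy1 gy2 hx0 hx1 hx2 hy0 hy1 hy2 : Nat) : Bool :=
  plM4 t q
    (Nat.mod (Nat.add (Nat.add (Nat.mul gx0 gy0) (Nat.mul gx1 gy1)) (Nat.mul gx2 gy2)) B9)
    W0
    (Nat.mod (Nat.add (Nat.add (Nat.mul hx0 hy0) (Nat.mul hx1 hy1)) (Nat.mul hx2 hy2)) B9)
    (Nat.sub (Nat.add (Nat.mul rq D) (Nat.mul q B1))
      (Nat.add (Nat.mul (Nat.mul 2 q) (Nat.div (Nat.mod (Nat.add (Nat.mul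
        (Nat.mod (Nat.add (Nat.add (Nat.mul gx0 hy0) (Nat.mul gx1 hy1)) (Nat.mul gx2 hy2)) B9)
        JJ) BI9) B9) B8)) rs)) r

/-- the rows -/
noncomputable def plM2 (t : TF) (r : Bool) (h : Hd)
    (x0 x1 x2 y0 y1 y2 z0 z1 z2 w0 w1 w2 D : Nat) : Bool :=
  @Hd.rec (fun _ => Bool) (fun _ a b c d e f q rq rs _ _ =>
    plM3 t r q rq rs (uu z0 z1 z2 w0 w1 w2) D
      (Nat.add (Nat.add (Nat.mul a x0) (Nat.mul d x1)) (Nat.mul e x2))
      (Nat.add (Nat.mul b x1) (Nat.mul f x2)) (Nat.mul c x2)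
      (Nat.add (Nat.add (Nat.mul a y0) (Nat.mul d y1)) (Nat.mul e y2))
      (Nat.add (Nat.mul b y1) (Nat.mul f y2)) (Nat.mul c y2)
      (Nat.add (Nat.add (Nat.mul a z0) (Nat.mul d z1)) (Nat.mul e z2))
      (Nat.add (Nat.mul b z1) (Nat.mul f z2)) (Nat.mul c z2)
      (Nat.add (Nat.add (Nat.mul a w0) (Nat.mul d w1)) (Nat.mul e w2))
      (Nat.add (Nat.mul b w1) (Nat.mul f w2)) (Nat.mul c w2)) h

/-- a corner of the box, then `r` -/
noncomputable def plM (t : TF) (r : Bool) (c : DC) : Bool :=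
  @DC.rec (fun _ => Bool) (fun h x0 x1 x2 y0 y1 y2 ka z0 z1 z2 w0 w1 w2 mu D _ _ =>
    chkL ka mu D (plM2 t r h x0 x1 x2 y0 y1 y2 z0 z1 z2 w0 w1 w2 D)) c

/-- all corners of the box -/
noncomputable def plMs (t : TF) (js : List DC) : Bool :=
  @List.rec DC (fun _ => Bool) true (fun c _ ih => plM t ih c) js

/-- **the plain leaf**, flat -/
noncomputable def fleafM (cs : List V) (sc : Hd) (js : List DC) : Bool :=
  @Hd.rec (fun _ => Bool) (fun m _ _ _ _ _ _ _ _ _ K ts => scM m K cs ts fun t => plMs t js) sc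

end Pool.Agent.Helper31.F5
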