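import Pool.Agent.Helper82.FL.Fast
import Pool.Agent.Helper31.F5.LeafM

/-!
# The flat leaf is the leaf
-/

set_option autoImplicit false

namespace Pool.Agent.Helper31.F5

open Pool.Agent.Helper82.FL

theorem an1_eq (r a : Bool) : an1 r a = band a r := by cases a <;> rfl

theorem an4_eq (r a b c d : Bool) : an4 r a b c d = band a (band b (band c (band d r))) := by
  cases a <;> cases b <;> cases c <;> cases d <;> rfl

/-- the closure of a list of corners -/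
noncomputable def clo (l : List SC) : TF :=
  @List.rec SC (fun _ => TF) (fun _ _ _ _ _ r => r)
    (fun x _ ih => tM x.kd x.tk x.tt x.v.a x.v.b x.v.n ih) l

theorem clo_cons (x : SC) (l : List SC) :
    clo (x :: l) = tM x.kd x.tk x.tt x.v.a x.v.b x.v.n (clo l) := rfl

theorem tM_eq (x : SC) (t : TF) (q U W0 W E : ℕ) (r : Bool) :
    tM x.kd x.tk x.tt x.v.a x.v.b x.v.n t q U W0 W E r
      = cnd (t q U W0 W E r) (Nat.ble (Nat.mul q (Nat.add (Nat.mul x.kd (dig U x.v.a))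
        (Nat.mul x.tt (dig W x.v.b)))) (Nat.mul x.tk E)) (Nat.beq x.v.n 0)
        (Nat.beq (dig W0 x.v.n) 0) := rfl

theorem plT_def (U W0 W E q : ℕ) (x : SC) : plT U W0 W E q x =
    band (Nat.ble (Nat.mul q (Nat.add (Nat.mul x.kd (dig U x.v.a)) (Nat.mul x.tt (dig W x.v.b))))
      (Nat.mul x.tk E)) (bor (Nat.beq x.v.n 0) (Nat.beq (dig W0 x.v.n) 0)) := by
  unfold plT
  unfold sng
  rfl

theorem clo_eq (l : List SC) (q U W0 W E : ℕ) (r : Bool) :
    clo l q U W0 W E r = band (allS (plT U W0 W E q) l) r := by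
  induction l with
  | nil => rfl
  | cons x l ih =>
    rw [clo_cons, tM_eq, cnd_eq, ih, allS_cons', plT_def]
    simp only [band_assoc]

theorem scM_cons (m K : ℕ) (v : V) (cs : List V) (ts : ℕ) (k : TF → Bool) :
    scM m K (v :: cs) ts k = scM1 (scM m K cs) k v.a v.b v.n (Nat.mul (Nat.mod ts 65536) v.l)
      (Nat.mul K v.d) K (nxT m ts) := by
  cases v
  rfl

theorem scM_eq (m K : ℕ) (cs : List V) : ∀ (ts : ℕ) (k : TF → Bool),
    scM m K cs ts k = scL m K cs ts (fun l => k (clo l)) := by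
  induction cs with
  | nil => intro ts k; rfl
  | cons v cs ih =>
    intro ts k
    rw [scM_cons, scL_cons]
    unfold scL2
    rw [scL3_eq]
    unfold scM1
    rw [an4_eq, ih]
    rfl

theorem plM3_eq (t : TF) (r : Bool) (h : Hd) (W0 D gx0 gx1 gx2 gy0 gy1 gy2 hx0 hx1 hx2 hy0 hy1 hy2 : ℕ) :
    plM3 t r h.q h.rq h.rs W0 D gx0 gx1 gx2 gy0 gy1 gy2 hx0 hx1 hx2 hy0 hy1 hy2
      = plM4 t h.q (uu gx0 gx1 gx2 gy0 gy1 gy2) W0 (uu hx0 hx1 hx2 hy0 hy1 hy2)
        (eNum h (uu gx0 gx1 gx2 hy0 hy1 hy2) D) r := rfl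

theorem plM2_eq (t : TF) (r : Bool) (h : Hd) (x0 x1 x2 y0 y1 y2 z0 z1 z2 w0 w1 w2 D : ℕ) :
    plM2 t r h x0 x1 x2 y0 y1 y2 z0 z1 z2 w0 w1 w2 D
      = plM3 t r h.q h.rq h.rs (uu z0 z1 z2 w0 w1 w2) D
        (r0 h.a h.d h.e x0 x1 x2) (r1 h.b h.f x1 x2) (Nat.mul h.c x2)
        (r0 h.a h.d h.e y0 y1 y2) (r1 h.b h.f y1 y2) (Nat.mul h.c y2)
        (r0 h.a h.d h.e z0 z1 z2) (r1 h.b h.f z1 z2) (Nat.mul h.c z2)
        (r0 h.a h.d h.e w0 w1 w2) (r1 h.b h.f w1 w2) (Nat.mul h.c w2) := by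
  cases h
  rfl

theorem plM4_eq (l : List SC) (q U W0 W E : ℕ) (r : Bool) :
    plM4 (clo l) q U W0 W E r = band (plL3 U W0 W E q l) r := by
  unfold plM4
  rw [an1_eq, clo_eq, plL3_eq, band_assoc]

theorem plM2_eq' (l : List SC) (r : Bool) (h : Hd) (x0 x1 x2 y0 y1 y2 z0 z1 z2 w0 w1 w2 D : ℕ) :
    plM2 (clo l) r h x0 x1 x2 y0 y1 y2 z0 z1 z2 w0 w1 w2 D
      = @Bool.rec (fun _ => Bool) false r (plL1 l h x0 x1 x2 y0 y1 y2 z0 z1 z2 w0 w1 w2 D) := by
  rw [brec_eq, plM2_eq, plM3_eq, plM4_eq]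
  unfold plL1
  unfold plL2
  rfl

theorem plM_def (t : TF) (r : Bool) (c : DC) : plM t r c = chkL c.ka c.mu c.D
    (plM2 t r c.h c.x0 c.x1 c.x2 c.y0 c.y1 c.y2 c.z0 c.z1 c.z2 c.w0 c.w1 c.w2 c.D) := by
  cases c
  rfl

theorem plM_eq (l : List SC) (r : Bool) (c : DC) : plM (clo l) r c = plL0 l c r := by
  rw [plM_def, plM2_eq']
  unfold plL0
  rfl

theorem plMs_eq (l : List SC) (js : List DC) : plMs (clo l) js = plL l js := by
  induction js with
  | nil => rfl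
  | cons c js ih =>
    have h1 : plMs (clo l) (c :: js) = plM (clo l) (plMs (clo l) js) c := rfl
    rw [h1, ih, plM_eq, plL_cons]

/-- **the flat leaf is the leaf** -/
theorem fleafM_eq (cs : List V) (sc : Hd) (js : List DC) : fleafM cs sc js = fleafJ cs sc js := by
  rw [← fleafL_eq]
  cases sc
  unfold fleafM
  unfold fleafL
  simp only [scM_eq, plMs_eq]

end Pool.Agent.Helper31.F5
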