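import Pool.Agent.Helper31.F5.Fast
import Pool.Agent.Helper31.F5.LeafM

/-!
# The fast operations
-/

set_option autoImplicit false

namespace Pool.Agent.Helper31.F5

open Pool.Agent.Helper82.FL (V fmrgL)
open Pool.Agent.Helper80.TP (Item)

/-- the operations; `b1 b2 b3` is the class of the three facets -/
noncomputable def opsF (b1 b2 b3 : Bool) : Pool.Agent.Helper28.TP.Ops V Item := opsG fleafM fmrgL b1 b2 b3

end Pool.Agent.Helper31.F5
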