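import Pool.Agent.Helper31.F5.FastEq
import Pool.Agent.Helper31.F5.LeafMEq
import Pool.Agent.Helper31.F5.Ops

/-!
# The fast operations are the operations
-/

set_option autoImplicit false

namespace Pool.Agent.Helper31.F5

open Pool.Agent.Helper82.FL (V fmrgL fmrgL_eq fmrgJ fleafJ)
open Pool.Agent.Helper80.TP (Item)

theorem fleafM_fun : fleafM = fleafJ := by
  funext cs sc js
  exact fleafM_eq cs sc js

theorem fmrgL_fun : fmrgL = fmrgJ := by
  funext cs sc u0 u1 u2 js
  exact fmrgL_eq cs sc u0 u1 u2 js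

/-- **the fast operations are the operations** -/
theorem opsF_eq (b1 b2 b3 : Bool) : opsF b1 b2 b3 = Pool.Agent.Helper80.KD.opsD b1 b2 b3 := by
  rw [opsD_eq]
  unfold opsF
  rw [fleafM_fun, fmrgL_fun]

end Pool.Agent.Helper31.F5
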