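import Mathlib
import Pool.Agent.Helper80.KD.Mach
import Pool.Agent.Helper19.F5.Dv

/-!
# The leaf, fast version

The same as `leafD`, without `force`: the kernel evaluates a closed term once (cache), so lazy terms
are cheaper. `leafG fl fg` has the two corner tests as parameters; `leafG fleafJ fmrgJ = leafD`.
-/

set_option autoImplicit false

namespace Pool.Agent.Helper31.F5

open Pool.Agent.Helper28.TP (Ivl)
open Pool.Agent.Helper80.TP (Item force force_eq nthK bl dvK comb M9 eqItem)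
open Pool.Agent.Helper80.TK (kM nup)
open Pool.Agent.Helper80.KD
open Pool.Agent.Helper82.FL (Hd V DC G3 mkHd fleafJ fmrgJ midV eqV)
open Pool.Agent.Helper19.F5 (dvN dvK_eq_dvN)

/-- a block -/
def bk (a k : Nat) : Nat := Nat.land (Nat.shiftRight a k) M9

/-- the header of the next corner -/
noncomputable def getF (own : Nat) (sc : Hd) (w : Nat) (L : List DC) (k : Hd → Nat → Bool) : Bool :=
  @Nat.rec (fun _ => Bool) (k sc w)
    (fun _ _ => @List.rec DC (fun _ => Bool) (k sc w)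
      (fun _ _ _ => @Option.rec Hd (fun _ => Bool) false
        (fun h => k h (Nat.shiftRight w 128))
        (mkHd (Nat.mul 4 (Nat.mod w P128)))) L) own

/-- the lists of vertices -/
abbrev LG := Nat → Nat → Nat → List G3

/-- the data of a corner -/
noncomputable def dcF (h : Hd) (a : Nat) (ps qs : List G3) : DC :=
  DC.mk h (Nat.land a M9) (Nat.land (Nat.shiftRight a 2560) M9) (Nat.land (Nat.shiftRight a 5120) M9)
    (Nat.land (Nat.shiftRight a 7680) M9) (Nat.land (Nat.shiftRight a 10240) M9)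
    (Nat.land (Nat.shiftRight a 12800) M9) (Nat.land (Nat.shiftRight a 15360) M9)
    (Nat.land (Nat.shiftRight a 17920) M9) (Nat.land (Nat.shiftRight a 20480) M9)
    (Nat.land (Nat.shiftRight a 23040) M9) (Nat.land (Nat.shiftRight a 25600) M9)
    (Nat.land (Nat.shiftRight a 28160) M9) (Nat.land (Nat.shiftRight a 30720) M9)
    (Nat.land (Nat.shiftRight a 33280) M9)
    (dvN (Nat.land (Nat.shiftRight a 15360) M9) (Nat.land (Nat.shiftRight a 33280) M9)) ps qs

/-- one corner -/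
noncomputable def mkF (own : Nat) (sc : Hd) (gp gq : LG) (a x₁ x₂ x₃ : Nat) (L : List DC) (w : Nat)
    (k : List DC → Nat → Bool) : Bool :=
  getF own sc w L fun h w => k (List.cons (dcF h a (gp x₁ x₂ x₃) (gq x₁ x₂ x₃)) L) w

/-- one parameter: both ends, or one end -/
noncomputable def stepF (g d l h A P : Nat)
    (body : Nat → Nat → List DC → Nat → (List DC → Nat → Bool) → Bool) (L : List DC) (w : Nat)
    (k : List DC → Nat → Bool) : Bool :=
  @Nat.rec (fun _ => Bool)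
    (@Bool.rec (fun _ => Bool)
      (@Bool.rec (fun _ => Bool) false (body l A L w k) (Nat.beq (Nat.add P g) 0))
      (body l (Nat.add A (Nat.mul l P)) L w k) (Nat.beq l h))
    (fun _ _ => body l (Nat.add A (Nat.mul l P)) L w fun L w => body h (Nat.add A (Nat.mul h P)) L w k) d

/-- all corners -/
noncomputable def cornF (own : Nat) (sc : Hd) (gp gq : LG) (g l₁ h₁ l₂ h₂ l₃ h₃ d₁ d₂ d₃ acc w : Nat)
    (k : List DC → Nat → Bool) : Bool :=
  stepF g d₃ l₃ h₃ (lo3 acc) (hi3 acc) (fun x₃ a =>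
    stepF g d₂ l₂ h₂ (lo2 a) (hi2 a) (fun x₂ a =>
      stepF g d₁ l₁ h₁ (lo1 a) (hi1 a) (fun x₁ a => mkF own sc gp gq a x₁ x₂ x₃))) [] w k

/-- the test of the sum -/
noncomputable def condF (own : Nat) (sc : Hd) (gp gq : LG) (g l₁ h₁ l₂ h₂ l₃ h₃ d₁ d₂ d₃ w : Nat)
    (fin : List DC → Bool) (acc : Nat) : Bool :=
  @Bool.rec (fun _ => Bool) false
    (cornF own sc gp gq g l₁ h₁ l₂ h₂ l₃ h₃ d₁ d₂ d₃ acc w fun L _ => fin L)
    (an (okD acc) (an (Nat.ble h₁ 256) (an (Nat.ble h₂ 256) (Nat.ble h₃ 256))))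

/-- use an item -/
noncomputable def useF (fin : Nat → Bool) (a : Item) (k : Nat → Nat → Nat → Nat → Bool)
    (w r acc : Nat) : Bool :=
  @Item.rec (fun _ => Bool)
    (fun N => @Nat.rec (fun _ => Bool) (fin (Nat.add acc (Nat.mul w N)))
      (fun _ _ => k (Nat.mod r 32) (Nat.mod (Nat.shiftRight r 5) 8192) (Nat.shiftRight r 18)
        (Nat.add acc (Nat.mul w N))) r)
    (fun _ => false) a

/-- the weighted sum -/
noncomputable def combF (fin : Nat → Bool) (env : List Item) : (Nat → Nat → Nat → Nat → Bool) →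
    Nat → Nat → Nat → Nat → Bool :=
  @List.rec Item (fun _ => (Nat → Nat → Nat → Nat → Bool) → Nat → Nat → Nat → Nat → Bool)
    (fun k => k)
    (fun a _ ih k => ih (fun n w r acc => @Nat.rec (fun _ => Bool) (useF fin a k w r acc)
      (fun n' _ => k n' w r acc) n)) env

/-- the sum, then `fin` -/
noncomputable def sumF (fin : Nat → Bool) (env : List Item) (w acc : Nat) : Bool :=
  combF fin env (fun _ _ _ _ => false)
    (Nat.mod w 32) (Nat.mod (Nat.shiftRight w 5) 8192) (Nat.shiftRight w 18) acc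

/-- one vertex -/
noncomputable def vtF (z x i a : Nat) : G3 :=
  G3.mk (Nat.mul z (bt x i a 1)) (Nat.mul z (bt x i a 2)) (Nat.mul z (bt x i a 3))

/-- a list of vertices -/
noncomputable def vtsF (z : Nat) (l : List Nat) (x₁ x₂ x₃ : Nat) : List G3 :=
  @List.rec Nat (fun _ => List G3) []
    (fun v _ ih => List.cons
      (vtF z (tI x₁ x₂ x₃ (Nat.mod v 4)) (Nat.mod v 4) (Nat.shiftRight v 2)) ih) l

section

variable (fl : List V → Hd → List DC → Bool) (fg : List V → Hd → Nat → Nat → Nat → List DC → Bool)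

/-- the group with the dual code `cu` -/
noncomputable def grpF (cs : List V) (env : List Item) (own : Nat) (sc : Hd)
    (l₁ h₁ l₂ h₂ l₃ h₃ d₁ d₂ d₃ w₀ cu z w : Nat) (gp gq : LG) : Bool :=
  sumF (condF own sc gp gq 1 l₁ h₁ l₂ h₂ l₃ h₃ d₁ d₂ d₃ w₀
    (fg cs sc (um (g0 cu)) (um (g1 cu)) (um (g2 cu)))) env w (Nat.mul z (oneD (kM 256)))

/-- all vertices of the width of `cu`, not for `u = 0` -/
noncomputable def grpWF (vtab : List (List Nat)) (cs : List V) (env : List Item) (own : Nat) (sc : Hd)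
    (l₁ h₁ l₂ h₂ l₃ h₃ d₁ d₂ d₃ w₀ w : Nat) : Bool :=
  force (Nat.mod w 4096) fun cu => force (Nat.mod (Nat.shiftRight w 12) 8192) fun z =>
  @Bool.rec (fun _ => Bool)
    (nthK vtab 4 (fun l =>
      grpF fg cs env own sc l₁ h₁ l₂ h₂ l₃ h₃ d₁ d₂ d₃ w₀ cu z (Nat.shiftRight w 25)
        (vtsF z l) (vtsF z l)) false)
    false (Nat.beq cu 2184)

/-- the vertices of a tag -/
noncomputable def grpVF (vtab : List (List Nat)) (cs : List V) (env : List Item) (own : Nat) (sc : Hd)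
    (l₁ h₁ l₂ h₂ l₃ h₃ d₁ d₂ d₃ w₀ w : Nat) : Bool :=
  force (Nat.mod (Nat.shiftRight w 8) 8192) fun z =>
  tg env (Nat.mod w 256) (fun n =>
    @Bool.rec (fun _ => Bool) false
      (force (Nat.shiftRight n 9) fun cu =>
        nthK vtab (Nat.mod (Nat.shiftRight n 1) 16) (fun lp =>
          nthK vtab (Nat.mod (Nat.shiftRight n 5) 16) (fun lq =>
            grpF fg cs env own sc l₁ h₁ l₂ h₂ l₃ h₃ d₁ d₂ d₃ w₀ cu z (Nat.shiftRight w 21)
              (vtsF z lp) (vtsF z lq))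
            false) false)
      (Nat.beq (Nat.mod n 2) 1)) false

/-- the leaf after the header -/
noncomputable def leaf3F (vtab : List (List Nat)) (cs : List V) (env : List Item) (own : Nat) (sc : Hd)
    (l₁ h₁ l₂ h₂ l₃ h₃ d₁ d₂ d₃ g w₀ w : Nat) : Bool :=
  @Nat.rec (fun _ => Bool)
    (sumF (condF own sc (fun _ _ _ => []) (fun _ _ _ => []) 0 l₁ h₁ l₂ h₂ l₃ h₃ d₁ d₂ d₃ w₀ (fl cs sc))
      env w 0)
    (fun g _ => @Nat.rec (fun _ => Bool)
      (grpWF fg vtab cs env own sc l₁ h₁ l₂ h₂ l₃ h₃ d₁ d₂ d₃ w₀ w)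
      (fun _ _ => grpVF fg vtab cs env own sc l₁ h₁ l₂ h₂ l₃ h₃ d₁ d₂ d₃ w₀ w) g) g

/-- the leaf after the parameters with both ends -/
noncomputable def leaf2F (vtab : List (List Nat)) (cs : List V) (env : List Item) (own : Nat) (sc : Hd)
    (l₁ h₁ l₂ h₂ l₃ h₃ d₁ d₂ d₃ g w₀ : Nat) : Bool :=
  leaf3F fl fg vtab cs env own sc l₁ h₁ l₂ h₂ l₃ h₃ d₁ d₂ d₃ g w₀
    (@Nat.rec (fun _ => Nat) w₀ (fun _ _ => Nat.shiftRight w₀ (Nat.mul 128 (nco d₁ d₂ d₃))) own)

/-- the leaf after the box -/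
noncomputable def leaf1F (vtab : List (List Nat)) (cs : List V) (env : List Item)
    (l₁ h₁ l₂ h₂ l₃ h₃ r : Nat) : Bool :=
  @Option.rec Hd (fun _ => Bool) false
    (fun sc => leaf2F fl fg vtab cs env (Nat.mod (Nat.shiftRight r 4) 2) sc l₁ h₁ l₂ h₂ l₃ h₃
      (Nat.mod (Nat.shiftRight r 7) 2) (Nat.mod (Nat.shiftRight r 8) 2) (Nat.mod (Nat.shiftRight r 9) 2)
      (Nat.mod (Nat.shiftRight r 5) 4) (Nat.shiftRight r (Nat.add 146 (Nat.mul 16 (Nat.mod r 16)))))
    (mkHd (Nat.shiftRight r 10))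

/-- the leaf -/
noncomputable def leafG (vtab : List (List Nat)) (cs : List V) (env : List Item) (box : List Ivl)
    (r : Nat) : Bool :=
  box4 box false fun l₁ h₁ l₂ h₂ l₃ h₃ _ _ =>
    leaf1F fl fg vtab cs env (Nat.div l₁ 256) (nup h₁) (Nat.div l₂ 256) (nup h₂) (Nat.div l₃ 256) (nup h₃) r

end

/-- the operations with the fast leaf -/
noncomputable def opsG (fl : List V → Hd → List DC → Bool)
    (fg : List V → Hd → Nat → Nat → Nat → List DC → Bool) (b1 b2 b3 : Bool) :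
    Pool.Agent.Helper28.TP.Ops V Item where
  eq := eqV
  eqI := eqItem
  mid := midV
  leaf := fun t r => leafG fl fg (Pool.Agent.Helper21.TK.vt b1 b2 b3) t.cs t.env t.box r
  rule := ruleK b1 b2 b3 (Pool.Agent.Helper21.TK.tab b1 b2 b3)

end Pool.Agent.Helper31.F5
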