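import Pool.Agent.Helper31.F5.Fast

/-!
# The fast leaf is the leaf
-/

set_option autoImplicit false

namespace Pool.Agent.Helper31.F5

open Pool.Agent.Helper28.TP (Ivl)
open Pool.Agent.Helper80.TP (Item force force_eq nthK bl dvK comb M9 eqItem)
open Pool.Agent.Helper80.TK (kM nup)
open Pool.Agent.Helper80.KD
open Pool.Agent.Helper82.FL (Hd V DC G3 mkHd fleafJ fmrgJ midV eqV)
open Pool.Agent.Helper19.F5 (dvN dvK_eq_dvN)

theorem frcH_eq (h : Hd) (k : Hd → Bool) : frcH h k = k h := by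
  cases h
  simp only [frcH, force_eq]

theorem getH_eq (own : Nat) (sc : Hd) (w : Nat) (L : List DC) (k : Hd → Nat → Bool) :
    getH own sc w L k = getF own sc w L k := by
  cases own with
  | zero => rfl
  | succ n =>
    cases L with
    | nil => rfl
    | cons c L =>
      show @Option.rec Hd (fun _ => Bool) false
        (fun h => frcH h fun h => force (Nat.shiftRight w 128) fun w => k h w)
        (mkHd (Nat.mul 4 (Nat.mod w P128))) = @Option.rec Hd (fun _ => Bool) false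
        (fun h => k h (Nat.shiftRight w 128)) (mkHd (Nat.mul 4 (Nat.mod w P128)))
      simp only [frcH_eq, force_eq]

theorem mkC_eq (own : Nat) (sc : Hd) (gs : GS) (gp gq : LG)
    (hgs : ∀ x₁ x₂ x₃ c, gs x₁ x₂ x₃ c = c (gp x₁ x₂ x₃) (gq x₁ x₂ x₃))
    (a x₁ x₂ x₃ : Nat) (L : List DC) (w : Nat) (k : List DC → Nat → Bool) :
    mkC own sc gs a x₁ x₂ x₃ L w k = mkF own sc gp gq a x₁ x₂ x₃ L w k := by
  unfold mkC mkF
  rw [getH_eq]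
  congr 1
  funext h w
  simp only [force_eq, dvK_eq_dvN, hgs]
  rfl

theorem stepD_eq (g d l h A P : Nat)
    (body : Nat → Nat → List DC → Nat → (List DC → Nat → Bool) → Bool) (L : List DC) (w : Nat)
    (k : List DC → Nat → Bool) :
    stepD g d l h A P body L w k = stepF g d l h A P body L w k := by
  unfold stepD stepF
  simp only [force_eq]

theorem corns_eq (own : Nat) (sc : Hd) (gs : GS) (gp gq : LG)
    (hgs : ∀ x₁ x₂ x₃ c, gs x₁ x₂ x₃ c = c (gp x₁ x₂ x₃) (gq x₁ x₂ x₃))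
    (g l₁ h₁ l₂ h₂ l₃ h₃ d₁ d₂ d₃ : Nat) :
    corns own sc gs g l₁ h₁ l₂ h₂ l₃ h₃ d₁ d₂ d₃ =
      cornF own sc gp gq g l₁ h₁ l₂ h₂ l₃ h₃ d₁ d₂ d₃ := by
  funext acc w k
  have h : mkC own sc gs = mkF own sc gp gq := by
    funext a x₁ x₂ x₃ L w k
    exact mkC_eq own sc gs gp gq hgs a x₁ x₂ x₃ L w k
  have h2 : ∀ x₃, (fun (x₂ a : Nat) (L : List DC) (w : Nat) (k : List DC → Nat → Bool) =>
      force (lo1 a) fun A1 => force (hi1 a) fun P1 =>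
      stepD g d₁ l₁ h₁ A1 P1 (fun x₁ a L w k => mkC own sc gs a x₁ x₂ x₃ L w k) L w k) =
      fun x₂ a => stepF g d₁ l₁ h₁ (lo1 a) (hi1 a) (fun x₁ a => mkF own sc gp gq a x₁ x₂ x₃) := by
    intro x₃
    funext x₂ a L w k
    rw [force_eq, force_eq, stepD_eq, h]
  have h3 : (fun (x₃ a : Nat) (L : List DC) (w : Nat) (k : List DC → Nat → Bool) =>
      force (lo2 a) fun A2 => force (hi2 a) fun P2 =>
      stepD g d₂ l₂ h₂ A2 P2 (fun (x₂ a : Nat) (L : List DC) (w : Nat) (k : List DC → Nat → Bool) =>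
      force (lo1 a) fun A1 => force (hi1 a) fun P1 =>
      stepD g d₁ l₁ h₁ A1 P1 (fun x₁ a L w k => mkC own sc gs a x₁ x₂ x₃ L w k) L w k) L w k) =
      fun x₃ a => stepF g d₂ l₂ h₂ (lo2 a) (hi2 a)
        fun x₂ a => stepF g d₁ l₁ h₁ (lo1 a) (hi1 a) (fun x₁ a => mkF own sc gp gq a x₁ x₂ x₃) := by
    funext x₃ a L w k
    rw [force_eq, force_eq, stepD_eq, h2]
  unfold corns cornF
  rw [force_eq, force_eq, stepD_eq, h3]


theorem condD_eq (own : Nat) (sc : Hd) (gs : GS) (gp gq : LG)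
    (hgs : ∀ x₁ x₂ x₃ c, gs x₁ x₂ x₃ c = c (gp x₁ x₂ x₃) (gq x₁ x₂ x₃))
    (g l₁ h₁ l₂ h₂ l₃ h₃ d₁ d₂ d₃ w : Nat) (fin : List DC → Bool) :
    condD own sc gs g l₁ h₁ l₂ h₂ l₃ h₃ d₁ d₂ d₃ w fin =
      condF own sc gp gq g l₁ h₁ l₂ h₂ l₃ h₃ d₁ d₂ d₃ w fin :=
  @congrArg _ _ _ _ (fun (X : Nat → Nat → (List DC → Nat → Bool) → Bool) => fun acc =>
    @Bool.rec (fun _ => Bool) false (X acc w fun L _ => fin L)
    (an (okD acc) (an (Nat.ble h₁ 256) (an (Nat.ble h₂ 256) (Nat.ble h₃ 256)))))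
    (corns_eq own sc gs gp gq hgs g l₁ h₁ l₂ h₂ l₃ h₃ d₁ d₂ d₃)


theorem sumD_eq (fin : Nat → Bool) (env : List Item) (w acc : Nat) :
    sumD fin env w acc = sumF fin env w acc := rfl

theorem vts_eq (z x₁ x₂ x₃ : Nat) (l : List Nat) (k : List G3 → Bool) :
    vts z x₁ x₂ x₃ l k = k (vtsF z l x₁ x₂ x₃) := by
  induction l generalizing k with
  | nil => rfl
  | cons v l ih =>
    have h : vts z x₁ x₂ x₃ (v :: l) k =
      vt1 z x₁ x₂ x₃ v fun g => vts z x₁ x₂ x₃ l fun t => k (List.cons g t) := rfl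
    rw [h]
    simp only [ih]
    rfl

theorem grpD_eq (cs : List V) (env : List Item) (own : Nat) (sc : Hd)
    (l₁ h₁ l₂ h₂ l₃ h₃ d₁ d₂ d₃ w₀ cu z w : Nat) (gs : GS) (gp gq : LG)
    (hgs : ∀ x₁ x₂ x₃ c, gs x₁ x₂ x₃ c = c (gp x₁ x₂ x₃) (gq x₁ x₂ x₃)) :
    grpD cs env own sc l₁ h₁ l₂ h₂ l₃ h₃ d₁ d₂ d₃ w₀ cu z w gs =
      grpF fmrgJ cs env own sc l₁ h₁ l₂ h₂ l₃ h₃ d₁ d₂ d₃ w₀ cu z w gp gq := by
  unfold grpD grpF
  rw [force_eq, force_eq, force_eq, force_eq, sumD_eq, condD_eq own sc gs gp gq hgs]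


theorem grpW_eq (vtab : List (List Nat)) (cs : List V) (env : List Item) (own : Nat) (sc : Hd)
    (l₁ h₁ l₂ h₂ l₃ h₃ d₁ d₂ d₃ w₀ w : Nat) :
    grpW vtab cs env own sc l₁ h₁ l₂ h₂ l₃ h₃ d₁ d₂ d₃ w₀ w =
      grpWF fmrgJ vtab cs env own sc l₁ h₁ l₂ h₂ l₃ h₃ d₁ d₂ d₃ w₀ w := by
  have h : ∀ (l : List Nat) (cu z u : Nat),
      grpD cs env own sc l₁ h₁ l₂ h₂ l₃ h₃ d₁ d₂ d₃ w₀ cu z u
        (fun x₁ x₂ x₃ k => vts z x₁ x₂ x₃ l fun ps => k ps ps) =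
      grpF fmrgJ cs env own sc l₁ h₁ l₂ h₂ l₃ h₃ d₁ d₂ d₃ w₀ cu z u (vtsF z l) (vtsF z l) :=
    fun l cu z u => grpD_eq cs env own sc l₁ h₁ l₂ h₂ l₃ h₃ d₁ d₂ d₃ w₀ cu z u _ _ _
      (fun x₁ x₂ x₃ c => vts_eq z x₁ x₂ x₃ l _)
  unfold grpW grpWF
  simp only [h]

theorem grpV_eq (vtab : List (List Nat)) (cs : List V) (env : List Item) (own : Nat) (sc : Hd)
    (l₁ h₁ l₂ h₂ l₃ h₃ d₁ d₂ d₃ w₀ w : Nat) :
    grpV vtab cs env own sc l₁ h₁ l₂ h₂ l₃ h₃ d₁ d₂ d₃ w₀ w =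
      grpVF fmrgJ vtab cs env own sc l₁ h₁ l₂ h₂ l₃ h₃ d₁ d₂ d₃ w₀ w := by
  have h : ∀ (lp lq : List Nat) (cu z u : Nat),
      grpD cs env own sc l₁ h₁ l₂ h₂ l₃ h₃ d₁ d₂ d₃ w₀ cu z u
        (fun x₁ x₂ x₃ k => vts z x₁ x₂ x₃ lp fun ps => vts z x₁ x₂ x₃ lq fun qs => k ps qs) =
      grpF fmrgJ cs env own sc l₁ h₁ l₂ h₂ l₃ h₃ d₁ d₂ d₃ w₀ cu z u (vtsF z lp) (vtsF z lq) :=
    fun lp lq cu z u => grpD_eq cs env own sc l₁ h₁ l₂ h₂ l₃ h₃ d₁ d₂ d₃ w₀ cu z u _ _ _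
      (fun x₁ x₂ x₃ c => by rw [vts_eq, vts_eq])
  unfold grpV grpVF
  simp only [h]

theorem leaf3_eq (vtab : List (List Nat)) (cs : List V) (env : List Item) (own : Nat) (sc : Hd)
    (l₁ h₁ l₂ h₂ l₃ h₃ d₁ d₂ d₃ g w₀ w : Nat) :
    leaf3 vtab cs env own sc l₁ h₁ l₂ h₂ l₃ h₃ d₁ d₂ d₃ g w₀ w =
      leaf3F fleafJ fmrgJ vtab cs env own sc l₁ h₁ l₂ h₂ l₃ h₃ d₁ d₂ d₃ g w₀ w := by
  unfold leaf3 leaf3F
  rw [condD_eq own sc (fun _ _ _ k => k [] []) (fun _ _ _ => []) (fun _ _ _ => [])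
    (fun _ _ _ _ => rfl), sumD_eq, grpW_eq, grpV_eq]

theorem leaf1_eq (vtab : List (List Nat)) (cs : List V) (env : List Item)
    (l₁ h₁ l₂ h₂ l₃ h₃ r : Nat) :
    leaf1 vtab cs env l₁ h₁ l₂ h₂ l₃ h₃ r = leaf1F fleafJ fmrgJ vtab cs env l₁ h₁ l₂ h₂ l₃ h₃ r := by
  unfold leaf1 leaf1F
  cases mkHd (Nat.shiftRight r 10) with
  | none => rfl
  | some sc => simp only [frcH_eq, force_eq, leaf2, leaf2F, leaf3_eq]

theorem leafD_eq (vtab : List (List Nat)) (cs : List V) (env : List Item) (box : List Ivl)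
    (r : Nat) : leafD vtab cs env box r = leafG fleafJ fmrgJ vtab cs env box r := by
  unfold leafD leafG
  simp only [force_eq, leaf1_eq]

theorem opsD_eq (b1 b2 b3 : Bool) : opsD b1 b2 b3 = opsG fleafJ fmrgJ b1 b2 b3 := by
  unfold opsD opsG
  simp only [leafD_eq]

end Pool.Agent.Helper31.F5
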